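import Pool.Agent.H94.WHM.FIN

/-!
# There is a hereditarily indecomposable weak Hilbert space (Casazza's question)

The definitions `H94.IsWeakHilbert`, `H94.Indecomposable`, `H94.IsHI` are in `Pool/Agent/H94/WHM/Stmt.lean`.
-/

set_option autoImplicit false

namespace Pool.Agent.Results.MP_96d438_an.HIWeakHilbert

open H94

/-- For `𝕜 = ℝ` and for `𝕜 = ℂ` there is a Banach space over `𝕜` that is a weak Hilbert space and
hereditarily indecomposable. -/
theorem result (𝕜 : Type) [RCLike 𝕜] :
    ∃ (X : Type) (_ : NormedAddCommGroup X) (_ : NormedSpace 𝕜 X) (_ : CompleteSpace X),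
      IsWeakHilbert 𝕜 X ∧ IsHI 𝕜 X :=
  exists_HI_weakHilbert 𝕜

end Pool.Agent.Results.MP_96d438_an.HIWeakHilbert
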